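import Pool.Agent.H93RH.Even

/-!
# Symmetries of a scalar evolutionary equation in normal form

`F = u²/2 + ε² c₂ u₂ + …` is in normal form with `a = 0`, `c₂ ≠ 0`; `G` is any homogeneous element of
degree `0` whose flow commutes with that of `F`.
-/

open MvPolynomial

namespace Pool.Agent.Y99.RH

open Pool.Agent.H93RH

set_option linter.all false

open Finset.HasAntidiagonal (antidiagonal)

/-! ### antisymmetry of the bracket -/

theorem brk_swap (Q R : DP) : brk Q R = - brk R Q := by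
  unfold brk
  rw [← finsum_neg_distrib]
  refine finsum_congr fun k => ?_
  ring

theorem self_commute (F : EDP) : FlowsCommute F F := by
  intro n
  set a : ℕ → DP := fun i => dx (PowerSeries.coeff i F) with ha
  have h1 : ∑ ij ∈ antidiagonal n, brk (a ij.1) (a ij.2) = - ∑ ij ∈ antidiagonal n, brk (a ij.1) (a ij.2) := by
    rw [← Finset.sum_neg_distrib]
    rw [← Finset.Nat.sum_antidiagonal_swap]
    refine Finset.sum_congr rfl fun ij _ => ?_
    rw [brk_swap]
    rfl
  show ∑ ij ∈ antidiagonal n, brk (a ij.1) (a ij.2) = 0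
  ext s k
  have h2 := congrArg (fun x : DP => PowerSeries.coeff k (coeff s x)) h1
  simp only [coeff_neg, map_neg] at h2
  rw [coeff_zero, map_zero]
  exact self_eq_neg.1 h2

theorem comm_symm {F G : EDP} (h : FlowsCommute F G) : FlowsCommute G F := by
  intro n
  have h0 := h n
  have h1 : ∑ ij ∈ antidiagonal n, brk (dx (PowerSeries.coeff ij.1 G)) (dx (PowerSeries.coeff ij.2 F)) =
      - ∑ ij ∈ antidiagonal n, brk (dx (PowerSeries.coeff ij.1 F)) (dx (PowerSeries.coeff ij.2 G)) := by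
    rw [← Finset.sum_neg_distrib]
    rw [← Finset.Nat.sum_antidiagonal_swap]
    refine Finset.sum_congr rfl fun ij _ => ?_
    rw [brk_swap]
    rfl
  rw [h1, h0, neg_zero]

variable {K : Type*} [Field K] [CharZero K] (ι : PowerSeries ℂ →+* K)

/-! ### elements of low weight -/

omit [CharZero K] in
theorem wt0 (A : AA K) (hA : ∀ s, coeff s A ≠ 0 → wt s = 0) : A = C (coeff 0 A) := by
  ext s
  rw [coeff_C]
  split_ifs with h
  · rw [h]
  · by_contra hs
    have h1 := hA s hs
    have h2 := low_form s (by omega)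
    have h3 := wt_low s (by omega)
    rw [show s 0 = 0 by omega, show s 1 = 0 by omega, show s 2 = 0 by omega] at h2
    apply h; rw [h2]; simp

omit [CharZero K] in
theorem wt2 (A : AA K) (hA : ∀ s, coeff s A ≠ 0 → wt s = 2) : A = C (coeff (Finsupp.single 0 1) A) * X 0 := by
  ext s
  rw [coeff_C_mul, coeff_X']
  split_ifs with h
  · rw [h, mul_one]
  · rw [mul_zero]
    by_contra hs
    have h1 := hA s hs
    have h2 := low_form s (by omega)
    have h3 := wt_low s (by omega)
    rw [show s 0 = 1 by omega, show s 1 = 0 by omega, show s 2 = 0 by omega] at h2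
    apply h; rw [h2]; simp

theorem br_wt0 (A : AA K) (hA : ∀ s, coeff s A ≠ 0 → wt s = 0) (G : AA K) : br A G = 0 := by
  rw [wt0 A hA, br_C_left]

theorem br_wt2 (A : AA K) (hA : ∀ s, coeff s A ≠ 0 → wt s = 2) (G : AA K) : br A G = 0 := by
  rw [wt2 A hA, br_smul_left, br_X0, mul_zero]

omit [CharZero K] in
theorem wt1 (A : AA K) (hA : ∀ s, coeff s A ≠ 0 → wt s = 1) : A = 0 := by
  ext s
  rw [coeff_zero]
  by_contra hs
  have h1 := hA s hs
  have h3 := wt_low s (by omega)
  omega

theorem supp_pp {F : EDP} (hF : Deg0 F) (v : ℕ) (s : ℕ →₀ ℕ) (h : coeff s (pp ι F v) ≠ 0) : wt s = v := by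
  by_contra hh
  apply h
  rw [coeff_pp ι hF, if_neg hh]

/-- exponents without `X 0` -/
theorem shift_facts (s : ℕ →₀ ℕ) : (s.mapDomain Nat.succ) 0 = 0 ∧ dn (s.mapDomain Nat.succ) = s := by
  have hz : (s.mapDomain Nat.succ) 0 = 0 := by
    rw [Finsupp.mapDomain_notin_range]
    rintro ⟨i, hi⟩; exact Nat.succ_ne_zero i hi
  refine ⟨hz, ?_⟩
  ext k
  rw [dn_apply]
  exact Finsupp.mapDomain_apply Nat.succ_injective s k

theorem wt_dg (s : ℕ →₀ ℕ) : wt s = dg s + 2 * (s.sum fun _ n => n) := by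
  unfold wt dg Finsupp.sum
  rw [Finset.mul_sum, ← Finset.sum_add_distrib]
  exact Finset.sum_congr rfl fun _ _ => by ring

/-- If the odd Taylor parts of `F` vanish, `F` contains only even powers of `ε`. -/
theorem even_of_pp (hι : Function.Injective ι) {F : EDP} (hF : Deg0 F) (h : ∀ q, Odd q → pp ι F q = 0) :
    ∀ k, Odd k → PowerSeries.coeff k F = 0 := by
  intro k hk
  ext1 s
  rw [coeff_zero]
  by_contra hs
  obtain ⟨hz, hdn0⟩ := shift_facts s
  set s0 : ℕ →₀ ℕ := s.mapDomain Nat.succ with hs0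
  have hdk : k = dg s0 := deg0_coeff hF s0 k (by rw [hdn0]; exact hs)
  have hodd : Odd (wt s0) := by
    rw [wt_dg, ← hdk]
    obtain ⟨a, ha⟩ := hk
    exact ⟨a + (s0.sum fun _ n => n), by omega⟩
  have h1 := coeff_pp ι hF s0 (wt s0)
  rw [h _ hodd, coeff_zero, if_pos rfl, hz, tc_zero_idx, hdn0, ← hdk] at h1
  apply hs
  apply hι
  rw [← h1, map_zero]

theorem pp_of_even {F : EDP} (hF : Deg0 F) (h : ∀ k, Odd k → PowerSeries.coeff k F = 0) :
    ∀ q, Odd q → pp ι F q = 0 := by
  intro q hq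
  ext s
  rw [coeff_zero, coeff_pp ι hF]
  split_ifs with hw
  · have hodd : Odd (dg s) := by
      rw [wt_dg] at hw
      obtain ⟨a, ha⟩ := hq
      exact ⟨a - (s.sum fun _ n => n), by omega⟩
    rw [h _ hodd, coeff_zero, tc_zero]
  · rfl

/-! ### facts about `F` -/

section

variable {F : EDP} (hF : Deg0 F)
  (hF0 : PowerSeries.coeff 0 F = C (PowerSeries.monomial 2 ((2 : ℂ)⁻¹)))
  (hN : NormalForm F)

include hF hN in
theorem nou (s : ℕ →₀ ℕ) (hs : s 1 ≠ 0) : coeff (dn s) (PowerSeries.coeff (dg s) F) = 0 := by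
  have hd : 1 ≤ dg s := by
    have h1 : 1 ∈ s.support := Finsupp.mem_support_iff.2 hs
    have h2 : s 1 * 1 ≤ dg s := by
      unfold dg Finsupp.sum
      exact Finset.single_le_sum (f := fun k => s k * k) (fun _ _ => Nat.zero_le _) h1
    omega
  by_cases hd1 : dg s = 1
  · rw [hd1, hN.1, coeff_zero]
  · by_contra hc
    exact hs (hN.2 (dg s) (by omega) (dn s) hc)

include hF hN in
theorem pp_three : pp ι F 3 = 0 := by
  ext s
  rw [coeff_zero]
  by_contra hs
  have h1 := supp_pp ι hF 3 s hs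
  have h3 := wt_low s (by omega)
  apply hs
  rw [coeff_pp ι hF, nou hF hN s (by omega), tc_zero, ite_self]

include hF hN in
theorem pp_nou (v : ℕ) : pderiv 1 (pp ι F v) = 0 := by
  ext s
  rw [coeff_pderiv, coeff_pp ι hF, nou hF hN (s + Finsupp.single 1 1) (by simp), tc_zero, ite_self,
    zero_mul, coeff_zero]

theorem d2F : (⇑(PowerSeries.derivative ℂ))^[2] (PowerSeries.monomial 2 ((2 : ℂ)⁻¹)) = 1 := by
  have m1 : (PowerSeries.monomial 0 (1 : ℂ)) = 1 := by
    ext k; simp [PowerSeries.coeff_monomial, PowerSeries.coeff_one]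
  rw [Function.iterate_succ_apply, Function.iterate_succ_apply, Function.iterate_zero, id, dd_monomial,
    dd_monomial, ← m1]
  congr 1; norm_num

theorem d3F (j : ℕ) : (⇑(PowerSeries.derivative ℂ))^[j + 3] (PowerSeries.monomial 2 ((2 : ℂ)⁻¹)) = 0 := by
  induction j with
  | zero => rw [Function.iterate_succ_apply', d2F]; simp
  | succ j ih => rw [show j + 1 + 3 = (j + 3) + 1 by ring, Function.iterate_succ_apply', ih, map_zero]

include hF hF0 in
theorem pp_four : pp ι F 4 = C (1 / 2) * P (ι (c2 F)) := by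
  have e1 : coeff (0 : ℕ →₀ ℕ) (C (PowerSeries.monomial 2 ((2 : ℂ)⁻¹)) : DP) =
      PowerSeries.monomial 2 ((2 : ℂ)⁻¹) := by simp
  set κ := ι (c2 F) with hκdef
  ext s
  have hPc : coeff s (P κ) = (if Finsupp.single 0 2 = s then 1 else 0) + 2 * κ * (if Finsupp.single 2 1 = s then 1 else 0) := by
    unfold P
    rw [coeff_add, coeff_X_pow, coeff_C_mul, coeff_X']
  rw [coeff_C_mul, hPc, coeff_pp ι hF]
  by_cases hw : wt s = 4
  · rw [if_pos hw]
    have h2 := low_form s (by omega)
    have h3 := wt_low s (by omega)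
    have hcase : (s 0 = 2 ∧ s 1 = 0 ∧ s 2 = 0) ∨ (s 0 = 0 ∧ s 1 = 0 ∧ s 2 = 1) := by omega
    rcases hcase with ⟨a0, a1, a2⟩ | ⟨a0, a1, a2⟩
    · rw [a0, a1, a2] at h2
      have hs : s = Finsupp.single 0 2 := by rw [h2]; simp
      have hne : ¬ (Finsupp.single 2 1 = s) := by
        intro h; rw [← h] at a2; simp at a2
      rw [if_neg hne, if_pos hs.symm, hs, dn_single0, dg_single, mul_zero, hF0, e1, Finsupp.single_eq_same]
      unfold tc
      rw [d2F, map_one]; simp [Nat.factorial]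
    · rw [a0, a1, a2] at h2
      have hs : s = Finsupp.single 2 1 := by rw [h2]; simp
      have hne : ¬ (Finsupp.single 0 2 = s) := by
        intro h; rw [← h] at a0; simp at a0
      have hdn : dn (Finsupp.single 2 1) = Finsupp.single 1 1 := by
        ext k
        rw [dn_apply]
        by_cases hk : k = 1
        · subst hk; simp
        · rw [Finsupp.single_eq_of_ne (by omega), Finsupp.single_eq_of_ne hk]
      rw [if_neg hne, if_pos hs.symm, a0, tc_zero_idx, hs, hdn, dg_single]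
      show κ = _
      ring
  · rw [if_neg hw, if_neg, if_neg]
    · ring
    · intro h; apply hw; rw [← h, wt_single]
    · intro h; apply hw; rw [← h, wt_single]

include hF in
theorem pp_ell (hι : Function.Injective ι) (q : ℕ) (hq : Odd q) (hmin : ∀ w, w < q → Odd w → pp ι F w = 0) :
    ell 0 (pp ι F q) = 0 := by
  have pz : ∀ s w, pp ι F w = 0 → wt s = w → s 0 = 0 → coeff (dn s) (PowerSeries.coeff (dg s) F) = 0 := by
    intro s w hw hs h0
    have h1 := coeff_pp ι hF s w
    rw [hw, coeff_zero, if_pos hs, h0, tc_zero_idx] at h1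
    apply hι
    rw [← h1, map_zero]
  rw [ell0_eq]
  ext s
  rw [coeff_pderiv, coeff_pp ι hF, coeff_zero]
  split_ifs with h
  · set s' : ℕ →₀ ℕ := s + Finsupp.single 0 1 with hs'
    have hs0 : s' 0 = s 0 + 1 := by rw [hs']; simp
    set s0 : ℕ →₀ ℕ := (dn s').mapDomain Nat.succ with hs0'
    have hdec : s' = Finsupp.single 0 (s' 0) + s0 := dn_decomp s'
    obtain ⟨hz, hdn0⟩ := shift_facts (dn s')
    rw [← hs0'] at hz hdn0
    have hdg0 : dg s0 = dg s' := by rw [dg_decomp, dg_decomp, hdn0]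
    have hwt0 : wt s' = s' 0 * 2 + wt s0 := by
      conv_lhs => rw [hdec]
      rw [wt_add, wt_single]
    have hodd : Odd (wt s0) := by
      obtain ⟨a, ha⟩ := hq
      exact ⟨a - s' 0, by omega⟩
    have := pz s0 (wt s0) (hmin (wt s0) (by omega) hodd) rfl hz
    rw [hdn0, hdg0] at this
    rw [this, tc_zero, zero_mul]
  · rw [zero_mul]

end

/-! ### the reduced symmetry -/

/-- leading term `g(u)` of `G` -/
noncomputable def lead (G : EDP) : PowerSeries ℂ := coeff (0 : ℕ →₀ ℕ) (PowerSeries.coeff 0 G)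

/-- `r v = (Taylor part of G) - g'' (Taylor part of F)` -/
noncomputable def rr (F G : EDP) (v : ℕ) : AA K :=
  pp ι G v - C (ι ((⇑(PowerSeries.derivative ℂ))^[2] (lead G))) * pp ι F v

theorem coeff_rr {F G : EDP} (hF : Deg0 F) (hG : Deg0 G) (s : ℕ →₀ ℕ) (v : ℕ) :
    coeff s (rr ι F G v) = if wt s = v then tc ι (s 0) (coeff (dn s) (PowerSeries.coeff (dg s) G)) -
      ι ((⇑(PowerSeries.derivative ℂ))^[2] (lead G)) *
        tc ι (s 0) (coeff (dn s) (PowerSeries.coeff (dg s) F)) else 0 := by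
  unfold rr
  rw [coeff_sub, coeff_C_mul, coeff_pp ι hF, coeff_pp ι hG]
  split_ifs <;> ring

theorem supp_rr {F G : EDP} (hF : Deg0 F) (hG : Deg0 G) (v : ℕ) (s : ℕ →₀ ℕ) (h : coeff s (rr ι F G v) ≠ 0) :
    wt s = v := by
  by_contra hh
  apply h
  rw [coeff_rr ι hF hG, if_neg hh]

theorem pure_rr {F G : EDP} (hF : Deg0 F) (hG : Deg0 G)
    (hF0 : PowerSeries.coeff 0 F = C (PowerSeries.monomial 2 ((2 : ℂ)⁻¹))) (j v : ℕ) :
    coeff (Finsupp.single 0 j) (rr ι F G v) = if j * 2 = v then tc ι j (lead G) -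
      ι ((⇑(PowerSeries.derivative ℂ))^[2] (lead G)) * tc ι j (PowerSeries.monomial 2 ((2 : ℂ)⁻¹)) else 0 := by
  have e1 : coeff (0 : ℕ →₀ ℕ) (C (PowerSeries.monomial 2 ((2 : ℂ)⁻¹)) : DP) =
      PowerSeries.monomial 2 ((2 : ℂ)⁻¹) := by simp
  rw [coeff_rr ι hF hG, wt_single, dn_single0, dg_single, mul_zero, hF0, e1, Finsupp.single_eq_same]
  rfl

theorem eq_rr {F G : EDP} (hF : Deg0 F) (hG : Deg0 G) (h : FlowsCommute F G) (N : ℕ) :
    ∑ vw ∈ antidiagonal N, br (pp ι F vw.1) (rr ι F G vw.2) = 0 := by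
  have h1 := main_eq ι F G hF hG h N
  have h2 := main_eq ι F F hF hF (self_commute F) N
  have h3 : ∑ vw ∈ antidiagonal N, br (pp ι F vw.1) (rr ι F G vw.2) =
      ∑ vw ∈ antidiagonal N, br (pp ι F vw.1) (pp ι G vw.2) -
        C (ι ((⇑(PowerSeries.derivative ℂ))^[2] (lead G))) *
          ∑ vw ∈ antidiagonal N, br (pp ι F vw.1) (pp ι F vw.2) := by
    rw [Finset.mul_sum, ← Finset.sum_sub_distrib]
    refine Finset.sum_congr rfl fun vw _ => ?_
    unfold rr
    rw [br_sub_right, br_smul_right]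
  rw [h3, h1, h2]; simp

theorem pure4 {F G : EDP} (hF : Deg0 F) (hG : Deg0 G)
    (hF0 : PowerSeries.coeff 0 F = C (PowerSeries.monomial 2 ((2 : ℂ)⁻¹))) (j : ℕ) :
    coeff (Finsupp.single 0 j) (rr ι F G 4) = 0 := by
  rw [pure_rr ι hF hG hF0]
  split_ifs with h
  · have hj : j = 2 := by omega
    subst hj
    unfold tc
    rw [d2F, map_one]; ring
  · rfl

/-- One commuting flow whose leading term `g` has `g''' ≠ 0` forces `F` to be even. -/
theorem even_F (hι : Function.Injective ι) {F G : EDP} (hF : Deg0 F)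
    (hF0 : PowerSeries.coeff 0 F = C (PowerSeries.monomial 2 ((2 : ℂ)⁻¹)))
    (hN : NormalForm F) (hc : c2 F ≠ 0) (hG : Deg0 G) (h : FlowsCommute F G)
    (hg : (⇑(PowerSeries.derivative ℂ))^[3] (lead G) ≠ 0) :
    ∀ q, Odd q → pp ι F q = 0 := by
  set c : K := ι ((⇑(PowerSeries.derivative ℂ))^[3] (lead G)) with hcdef
  have hc0 : c ≠ 0 := by
    intro h0
    apply hg
    apply hι
    rw [← hcdef, h0, map_zero]
  have hκ : ι (c2 F) ≠ 0 := by
    intro h0
    apply hc
    apply hι
    rw [h0, map_zero]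
  set r : ℕ → AA K := fun v => C c⁻¹ * rr ι F G v with hr
  have sr : ∀ v s, coeff s (r v) ≠ 0 → wt s = v := by
    intro v s hs
    apply supp_rr ι hF hG v s
    intro h0
    apply hs
    simp only [hr, coeff_C_mul, h0, mul_zero]
  refine final_alg (ι (c2 F)) hκ (fun v => pp ι F v) r (fun v => Hm_of_supp _ v (supp_pp ι hF v))
    (fun v => Hm_of_supp _ v (sr v)) ?_ (br_wt0 _ (supp_pp ι hF 0)) (br_wt2 _ (supp_pp ι hF 2))
    (wt1 _ (supp_pp ι hF 1)) (pp_three ι hF hN) (pp_four ι hF hF0) ?_ ?_ ?_ ?_ (pp_nou ι hF hN)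
    (pp_ell ι hF hι)
  · intro N
    have h1 : ∑ vw ∈ antidiagonal N, br (pp ι F vw.1) (r vw.2) =
        C c⁻¹ * ∑ vw ∈ antidiagonal N, br (pp ι F vw.1) (rr ι F G vw.2) := by
      rw [Finset.mul_sum]
      refine Finset.sum_congr rfl fun vw _ => ?_
      simp only [hr, br_smul_right]
    rw [h1, eq_rr ι hF hG h, mul_zero]
  · intro A
    rw [br_swap, br_wt0 _ (sr 0), neg_zero]
  · intro A
    rw [br_swap, br_wt2 _ (sr 2), neg_zero]
  · intro j
    simp only [hr, coeff_C_mul, pure4 ι hF hG hF0 j, mul_zero]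
  · intro j
    simp only [hr, coeff_C_mul]
    rw [pure_rr ι hF hG hF0]
    by_cases hj : j = 3
    · subst hj
      rw [if_pos (by norm_num), if_pos rfl]
      unfold tc
      rw [show (⇑(PowerSeries.derivative ℂ))^[3] (PowerSeries.monomial 2 ((2 : ℂ)⁻¹)) = 0 from d3F 0,
        map_zero, ← hcdef]
      simp only [zero_mul, mul_zero, sub_zero]
      rw [← mul_assoc, inv_mul_cancel₀ hc0]
      norm_num [Nat.factorial]
    · rw [if_neg (by omega), if_neg hj, mul_zero]

/-- The step used twice below: the part of weight `w` is central for the KdV-like leading part. -/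
theorem step {F G : EDP} (hF : Deg0 F) (hG : Deg0 G)
    (hF0 : PowerSeries.coeff 0 F = C (PowerSeries.monomial 2 ((2 : ℂ)⁻¹)))
    (hN : NormalForm F) (h : FlowsCommute F G) (w : ℕ)
    (hlow : ∀ v w', 5 ≤ v → v + w' = w + 4 → br (pp ι F v) (rr ι F G w') = 0)
    (hpure : ∀ j, coeff (Finsupp.single 0 j) (rr ι F G w) = 0) : rr ι F G w = 0 := by
  have h1 := eq_rr ι hF hG h (w + 4)
  have h2 : ∑ vw ∈ antidiagonal (w + 4), br (pp ι F vw.1) (rr ι F G vw.2) =
      br (pp ι F 4) (rr ι F G w) := by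
    rw [Finset.sum_eq_single (4, w)]
    · rintro ⟨v, w'⟩ hvw hne
      rw [Finset.HasAntidiagonal.mem_antidiagonal] at hvw
      simp only at hvw
      rcases Nat.lt_or_ge v 5 with hv | hv
      · interval_cases v
        · exact br_wt0 _ (supp_pp ι hF 0) _
        · show br (pp ι F 1) _ = 0
          rw [wt1 _ (supp_pp ι hF 1), br_zero_left]
        · exact br_wt2 _ (supp_pp ι hF 2) _
        · show br (pp ι F 3) _ = 0
          rw [pp_three ι hF hN, br_zero_left]
        · have hw' : w' = w := by omega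
          subst hw'
          exact absurd rfl hne
      · exact hlow v w' hv hvw
    · intro hmem
      exact absurd (Finset.HasAntidiagonal.mem_antidiagonal.2 (by simp only; omega)) hmem
  rw [h2, pp_four ι hF hF0, br_smul_left] at h1
  have h3 : br (P (ι (c2 F))) (rr ι F G w) = 0 := by
    rcases mul_eq_zero.1 h1 with h4 | h4
    · exact absurd (C_eq_zero.1 h4) (by norm_num)
    · exact h4
  exact cent _ _ h3 hpure

/-- If `F` is even then every homogeneous symmetry is even. -/
theorem even_G {F G : EDP} (hF : Deg0 F)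
    (hF0 : PowerSeries.coeff 0 F = C (PowerSeries.monomial 2 ((2 : ℂ)⁻¹)))
    (hN : NormalForm F) (hG : Deg0 G) (h : FlowsCommute F G)
    (hev : ∀ q, Odd q → pp ι F q = 0) : ∀ q, Odd q → pp ι G q = 0 := by
  have key : ∀ w, Odd w → rr ι F G w = 0 := by
    intro w
    induction w using Nat.strong_induction_on with
    | _ w ih =>
    intro hw
    apply step ι hF hG hF0 hN h w
    · intro v w' hv hvw
      rcases Nat.even_or_odd v with hve | hvo
      · have hw' : Odd w' := by
          obtain ⟨a, ha⟩ := hw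
          obtain ⟨b, hb⟩ := hve
          exact ⟨a + 2 - b, by omega⟩
        rw [ih w' (by omega) hw', br_zero_right]
      · rw [hev v hvo, br_zero_left]
    · intro j
      rw [pure_rr ι hF hG hF0, if_neg]
      intro hj
      obtain ⟨a, ha⟩ := hw
      omega
  intro q hq
  have h1 := key q hq
  unfold rr at h1
  rw [hev q hq, mul_zero, sub_zero] at h1
  exact h1

/-- If the leading term `g` has `g''' = 0`, the symmetry is trivial. -/
theorem trivial_G {F G : EDP} (hF : Deg0 F)
    (hF0 : PowerSeries.coeff 0 F = C (PowerSeries.monomial 2 ((2 : ℂ)⁻¹)))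
    (hN : NormalForm F) (hG : Deg0 G) (h : FlowsCommute F G)
    (hg : (⇑(PowerSeries.derivative ℂ))^[3] (lead G) = 0) : ∀ w, 3 ≤ w → rr ι F G w = 0 := by
  have hg' : ∀ j, (⇑(PowerSeries.derivative ℂ))^[j + 3] (lead G) = 0 := by
    intro j
    induction j with
    | zero => exact hg
    | succ j ih => rw [show j + 1 + 3 = (j + 3) + 1 by ring, Function.iterate_succ_apply', ih, map_zero]
  intro w
  induction w using Nat.strong_induction_on with
  | _ w ih =>
  intro hw
  apply step ι hF hG hF0 hN h w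
  · intro v w' hv hvw
    rcases Nat.lt_or_ge w' 3 with hw' | hw'
    · rw [br_swap]
      interval_cases w'
      · rw [br_wt0 _ (supp_rr ι hF hG 0), neg_zero]
      · rw [wt1 _ (supp_rr ι hF hG 1), br_zero_left, neg_zero]
      · rw [br_wt2 _ (supp_rr ι hF hG 2), neg_zero]
    · rw [ih w' (by omega) hw', br_zero_right]
  · intro j
    rw [pure_rr ι hF hG hF0]
    split_ifs with hj
    · rcases Nat.lt_or_ge j 3 with h3 | h3
      · have h2 : j = 2 := by omega
        subst h2
        unfold tc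
        rw [d2F, map_one]; ring
      · obtain ⟨i, rfl⟩ : ∃ i, j = i + 3 := ⟨j - 3, by omega⟩
        unfold tc
        rw [hg' i, d3F i, map_zero]; ring
    · rfl

end Pool.Agent.Y99.RH
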