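import Pool.Agent.Y99.RH.Sym

/-!
# Symmetries whose leading term is a polynomial of degree at most two are trivial
-/

open MvPolynomial

namespace Pool.Agent.Y99.RH

open Pool.Agent.H93RH

set_option linter.all false

open Finset.HasAntidiagonal (antidiagonal)

/-- `G = α + β u + γ F` with complex numbers `α, β, γ`: the flow of `G` is `β u_x + γ u_t`. -/
def IsTrivial (F G : EDP) : Prop :=
  ∃ α β γ : ℂ, G = PowerSeries.C (C (PowerSeries.C α + PowerSeries.C β * PowerSeries.X) : DP) +
    PowerSeries.C (C (PowerSeries.C γ) : DP) * F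

theorem coeff_iter3 (g : PowerSeries ℂ) (n : ℕ) :
    PowerSeries.coeff n ((⇑(PowerSeries.derivative ℂ))^[3] g) =
      PowerSeries.coeff (n + 3) g * ((n : ℂ) + 3) * ((n : ℂ) + 2) * ((n : ℂ) + 1) := by
  rw [Function.iterate_succ_apply', Function.iterate_succ_apply', Function.iterate_succ_apply',
    Function.iterate_zero, id, PowerSeries.coeff_derivative, PowerSeries.coeff_derivative,
    PowerSeries.coeff_derivative]
  push_cast
  ring

theorem coeff_iter2 (g : PowerSeries ℂ) (n : ℕ) :
    PowerSeries.coeff n ((⇑(PowerSeries.derivative ℂ))^[2] g) =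
      PowerSeries.coeff (n + 2) g * ((n : ℂ) + 2) * ((n : ℂ) + 1) := by
  rw [Function.iterate_succ_apply', Function.iterate_succ_apply',
    Function.iterate_zero, id, PowerSeries.coeff_derivative, PowerSeries.coeff_derivative]
  push_cast
  ring

theorem high_zero {g : PowerSeries ℂ} (hg : (⇑(PowerSeries.derivative ℂ))^[3] g = 0) (n : ℕ) :
    PowerSeries.coeff (n + 3) g = 0 := by
  have h := coeff_iter3 g n
  rw [hg, map_zero] at h
  have h1 : ((n : ℂ) + 3) ≠ 0 := by exact_mod_cast Nat.succ_ne_zero (n + 2)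
  have h2 : ((n : ℂ) + 2) ≠ 0 := by exact_mod_cast Nat.succ_ne_zero (n + 1)
  have h3 : ((n : ℂ) + 1) ≠ 0 := by exact_mod_cast Nat.succ_ne_zero n
  have h4 := h.symm
  rcases mul_eq_zero.1 h4 with h5 | h5
  · rcases mul_eq_zero.1 h5 with h6 | h6
    · rcases mul_eq_zero.1 h6 with h7 | h7
      · exact h7
      · exact absurd h7 h1
    · exact absurd h6 h2
  · exact absurd h5 h3

theorem second_const {g : PowerSeries ℂ} (hg : (⇑(PowerSeries.derivative ℂ))^[3] g = 0) :
    (⇑(PowerSeries.derivative ℂ))^[2] g = PowerSeries.C (2 * PowerSeries.coeff 2 g) := by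
  ext n
  rw [coeff_iter2]
  cases n with
  | zero => simp; ring
  | succ n =>
    rw [show n + 1 + 2 = n + 3 by ring, high_zero hg, PowerSeries.coeff_C]
    simp

theorem quad_form {g : PowerSeries ℂ} (hg : (⇑(PowerSeries.derivative ℂ))^[3] g = 0) :
    g = PowerSeries.C (PowerSeries.coeff 0 g) + PowerSeries.C (PowerSeries.coeff 1 g) * PowerSeries.X +
      PowerSeries.C (2 * PowerSeries.coeff 2 g) * PowerSeries.monomial 2 ((2 : ℂ)⁻¹) := by
  ext n
  rw [map_add, map_add, PowerSeries.coeff_C, PowerSeries.coeff_C_mul, PowerSeries.coeff_C_mul,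
    PowerSeries.coeff_X, PowerSeries.coeff_monomial]
  match n with
  | 0 => simp
  | 1 => simp
  | 2 => simp; ring
  | n + 3 => rw [high_zero hg]; simp

variable {K : Type*} [Field K] [CharZero K] (ι : PowerSeries ℂ →+* K)

theorem trivial_of (hι : Function.Injective ι) {F G : EDP} (hF : Deg0 F)
    (hF0 : PowerSeries.coeff 0 F = C (PowerSeries.monomial 2 ((2 : ℂ)⁻¹)))
    (hN : NormalForm F) (hG : Deg0 G) (h : FlowsCommute F G)
    (hg : (⇑(PowerSeries.derivative ℂ))^[3] (lead G) = 0) : IsTrivial F G := by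
  classical
  have hr := trivial_G ι hF hF0 hN hG h hg
  have h2 := second_const hg
  set γ : ℂ := 2 * PowerSeries.coeff 2 (lead G) with hγ
  refine ⟨PowerSeries.coeff 0 (lead G), PowerSeries.coeff 1 (lead G), γ, ?_⟩
  -- the coefficients with `s ≠ 0`
  have key : ∀ s : ℕ →₀ ℕ, s ≠ 0 → ∀ k, coeff s (PowerSeries.coeff k G) =
      PowerSeries.C γ * coeff s (PowerSeries.coeff k F) := by
    intro s hs k
    obtain ⟨hz, hdn⟩ := shift_facts s
    set s0 : ℕ →₀ ℕ := s.mapDomain Nat.succ with hs0
    by_cases hk : k = dg s0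
    · have hw : 3 ≤ wt s0 := by
        rw [wt_decomp, hdn]
        obtain ⟨i, hi⟩ : ∃ i, s i ≠ 0 := by
          by_contra hcon
          push Not at hcon
          exact hs (Finsupp.ext hcon)
        have h3 : s i * (i + 3) ≤ s.sum fun k n => n * (k + 3) := by
          unfold Finsupp.sum
          exact Finset.single_le_sum (f := fun k => s k * (k + 3)) (fun _ _ => Nat.zero_le _)
            (Finsupp.mem_support_iff.2 hi)
        have h4 : 1 ≤ s i := Nat.one_le_iff_ne_zero.2 hi
        have h5 : 1 * 3 ≤ s i * (i + 3) := Nat.mul_le_mul h4 (by omega)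
        omega
      have h6 := coeff_rr ι hF hG s0 (wt s0)
      rw [hr _ hw, coeff_zero, if_pos rfl, hz, tc_zero_idx, tc_zero_idx, hdn, ← hk, h2, ← map_mul,
        ← map_sub] at h6
      have h7 : coeff s (PowerSeries.coeff k G) - PowerSeries.C γ * coeff s (PowerSeries.coeff k F) = 0 := by
        apply hι
        rw [← h6, map_zero]
      exact sub_eq_zero.1 h7
    · have h8 : ∀ {H : EDP}, Deg0 H → coeff s (PowerSeries.coeff k H) = 0 := by
        intro H hH
        by_contra hne
        exact hk (deg0_coeff hH s0 k (by rw [hdn]; exact hne))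
      rw [h8 hF, h8 hG, mul_zero]
  have hzero : ∀ {H : EDP}, Deg0 H → ∀ k, k ≠ 0 → coeff (0 : ℕ →₀ ℕ) (PowerSeries.coeff k H) = 0 := by
    intro H hH k hk
    by_contra hne
    apply hk
    have := deg0_coeff hH 0 k (by
      have : dn 0 = 0 := by ext i; rfl
      rw [this]; exact hne)
    rw [this]; rfl
  ext1 k
  ext1 s
  rw [map_add, PowerSeries.coeff_C_mul, coeff_add, coeff_C_mul, PowerSeries.coeff_C]
  by_cases hs : s = 0
  · subst hs
    by_cases hk : k = 0
    · subst hk
      rw [if_pos rfl, hF0, coeff_C, coeff_C, if_pos rfl, if_pos rfl]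
      exact quad_form hg
    · rw [if_neg hk, coeff_zero, zero_add, hzero hG k hk, hzero hF k hk, mul_zero]
  · rw [key s hs k]
    by_cases hk : k = 0
    · subst hk
      rw [if_pos rfl, hF0, coeff_C, coeff_C, if_neg (Ne.symm hs), if_neg (Ne.symm hs), mul_zero, add_zero]
    · rw [if_neg hk, coeff_zero, zero_add]

end Pool.Agent.Y99.RH
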